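import Pool.Agent.W268.Dy.Stm

set_option autoImplicit false

/-! DY-EN: the energy inequality up to generation `M`. -/

namespace Pool.Agent.W64.Dy

open Finset Filter Topology Pool.Agent.W268.Dy

variable {K : ℕ}

lemma gsum_congr (n : ℕ) (f g : Node K → ℝ) (h : ∀ w, w.length = n → f w = g w) :
    gsum n f = gsum n g := by
  induction n generalizing f g with
  | zero => exact h [] rfl
  | succ n ih =>
    refine Finset.sum_congr rfl fun c _ => ih _ _ fun w hw => h (c :: w) ?_
    simp [hw]

lemma gsum_add (n : ℕ) (f g : Node K → ℝ) :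
    gsum n (fun w => f w + g w) = gsum n f + gsum n g := by
  induction n generalizing f g with
  | zero => rfl
  | succ n ih =>
    show ∑ c : Fin K, gsum n (fun u => f (c :: u) + g (c :: u)) =
      ∑ c : Fin K, gsum n (fun u => f (c :: u)) + ∑ c : Fin K, gsum n (fun u => g (c :: u))
    rw [← Finset.sum_add_distrib]
    exact Finset.sum_congr rfl fun c _ => ih _ _

lemma gsum_mul (n : ℕ) (a : ℝ) (f : Node K → ℝ) :
    gsum n (fun w => a * f w) = a * gsum n f := by
  induction n generalizing f with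
  | zero => rfl
  | succ n ih =>
    show ∑ c : Fin K, gsum n (fun u => a * f (c :: u)) = a * ∑ c : Fin K, gsum n (fun u => f (c :: u))
    rw [Finset.mul_sum]
    exact Finset.sum_congr rfl fun c _ => ih _

lemma gsum_sum (n : ℕ) {ι : Type*} (s : Finset ι) (f : ι → Node K → ℝ) :
    gsum n (fun w => ∑ i ∈ s, f i w) = ∑ i ∈ s, gsum n (f i) := by
  induction n generalizing f with
  | zero => rfl
  | succ n ih =>
    show ∑ c : Fin K, gsum n (fun u => ∑ i ∈ s, f i (c :: u)) =
      ∑ i ∈ s, ∑ c : Fin K, gsum n (fun u => f i (c :: u))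
    rw [Finset.sum_comm]
    exact Finset.sum_congr rfl fun c _ => ih _

lemma gsum_nonneg (n : ℕ) (f : Node K → ℝ) (h : ∀ w, 0 ≤ f w) : 0 ≤ gsum n f := by
  induction n generalizing f with
  | zero => exact h []
  | succ n ih => exact Finset.sum_nonneg fun c _ => ih _ fun w => h (c :: w)

lemma gsum_hasDerivAt (n : ℕ) (f : ℝ → Node K → ℝ) (f' : Node K → ℝ) (t : ℝ)
    (h : ∀ w, w.length = n → HasDerivAt (fun s => f s w) (f' w) t) :
    HasDerivAt (fun s => gsum n (f s)) (gsum n f') t := by
  induction n generalizing f f' with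
  | zero => exact h [] rfl
  | succ n ih =>
    refine HasDerivAt.fun_sum fun c _ => ih (fun s u => f s (c :: u)) (fun u => f' (c :: u)) ?_
    intro w hw
    exact h (c :: w) (by simp [hw])

lemma gsum_continuousOn (n : ℕ) (f : ℝ → Node K → ℝ) (S : Set ℝ)
    (h : ∀ w, ContinuousOn (fun s => f s w) S) :
    ContinuousOn (fun s => gsum n (f s)) S := by
  induction n generalizing f with
  | zero => exact h []
  | succ n ih =>
    exact continuousOn_finsetSum _ fun c _ => ih (fun s u => f s (c :: u)) fun w => h (c :: w)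

/-- the loss term -/
noncomputable def loss (q : ℝ) (X : Node K → ℝ) (n : ℕ) : ℝ :=
  2 * q ^ (n + 1) * gsum n (fun w => X w ^ 2 * ∑ c : Fin K, X (c :: w))

lemma gain_eq (q : ℝ) (X : Node K → ℝ) (n : ℕ) :
    gsum (n + 1) (fun w => 2 * X w * gain q X w) = loss q X n := by
  show ∑ c : Fin K, gsum n (fun u => 2 * X (c :: u) * (q ^ (u.length + 1) * X u ^ 2)) = _
  unfold loss
  have h1 : (fun w => X w ^ 2 * ∑ c : Fin K, X (c :: w)) =
      fun w => ∑ c : Fin K, X w ^ 2 * X (c :: w) := by
    funext w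
    rw [Finset.mul_sum]
  rw [h1, gsum_sum, Finset.mul_sum]
  refine Finset.sum_congr rfl fun c _ => ?_
  rw [← gsum_mul]
  refine gsum_congr n _ _ fun w hw => ?_
  rw [hw]
  ring

lemma der_eq (ν μ q : ℝ) (X : Node K → ℝ) (n : ℕ) :
    gsum n (fun w => 2 * X w * rhs ν μ q X w) = -(2 * ν) * (μ ^ n * gsum n (fun w => X w ^ 2)) +
      gsum n (fun w => 2 * X w * gain q X w) - loss q X n := by
  have h1 : gsum n (fun w => 2 * X w * rhs ν μ q X w) =
      gsum n (fun w => (-(2 * ν) * μ ^ n) * X w ^ 2 + (2 * X w * gain q X w +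
        (-(2 * q ^ (n + 1))) * (X w ^ 2 * ∑ c : Fin K, X (c :: w)))) := by
    refine gsum_congr n _ _ fun w hw => ?_
    unfold rhs
    rw [hw]
    ring
  rw [h1, gsum_add, gsum_add, gsum_mul, gsum_mul]
  unfold loss
  ring

lemma tele (ν μ q : ℝ) (X : Node K → ℝ) (M : ℕ) :
    ∑ n ∈ range (M + 1), gsum n (fun w => 2 * X w * rhs ν μ q X w) =
      -(2 * ν) * ∑ n ∈ range (M + 1), μ ^ n * gsum n (fun w => X w ^ 2) - loss q X M := by
  induction M with
  | zero =>
    rw [Finset.sum_range_one, Finset.sum_range_one, der_eq]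
    have h : gsum 0 (fun w => 2 * X w * gain q X w) = 0 := by
      show 2 * X [] * gain q X [] = 0
      simp [gain]
    rw [h]
    ring
  | succ M ih =>
    rw [Finset.sum_range_succ, ih, Finset.sum_range_succ _ (M + 1), der_eq, gain_eq]
    ring

theorem main : S_en := by
  intro K ν μ q M X hν hμ hq hX t ht
  set e : ℝ → ℝ := fun t => ∑ n ∈ range (M + 1), gsum n (fun w => X t w ^ 2) with he
  set F : ℝ → ℝ := fun t => ∑ n ∈ range (M + 1), μ ^ n * gsum n (fun w => X t w ^ 2) with hF
  have hc : ∀ n, ContinuousOn (fun s => gsum n (fun w => X s w ^ 2)) (Set.Ici 0) := fun n =>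
    gsum_continuousOn n (fun s w => X s w ^ 2) _ fun w => (hX.cont w).pow 2
  have hec : ContinuousOn e (Set.Ici 0) := continuousOn_finsetSum _ fun n _ => hc n
  have hFc : ContinuousOn F (Set.Ici 0) :=
    continuousOn_finsetSum _ fun n _ => continuousOn_const.mul (hc n)
  have hsub : Set.Icc 0 t ⊆ Set.Ici (0 : ℝ) := fun x hx => hx.1
  have hder : ∀ x ∈ Set.Ioo 0 t, HasDerivAt e
      (∑ n ∈ range (M + 1), gsum n (fun w => 2 * X x w * rhs ν μ q (X x) w)) x := by
    intro x hx
    refine HasDerivAt.fun_sum fun n hn => ?_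
    refine gsum_hasDerivAt n (fun s w => X s w ^ 2) _ x fun w hw => ?_
    have h1 := hX.ode w (by rw [hw]; exact Nat.lt_succ_iff.1 (Finset.mem_range.1 hn)) x hx.1
    have h2 : HasDerivAt (fun s => X s w ^ 2) (((2 : ℕ) : ℝ) * X x w ^ (2 - 1) *
        rhs ν μ q (X x) w) x := h1.fun_pow 2
    simpa using h2
  have hmain := intervalIntegral.sub_le_integral_of_hasDeriv_right_of_le (g := e)
    (g' := fun x => ∑ n ∈ range (M + 1), gsum n (fun w => 2 * X x w * rhs ν μ q (X x) w))
    (φ := fun x => -(2 * ν) * F x) ht (hec.mono hsub)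
    (fun x hx => (hder x hx).hasDerivWithinAt)
    ((continuousOn_const.mul (hFc.mono hsub)).integrableOn_Icc)
    (fun x hx => by
      rw [tele]
      have h1 : 0 ≤ loss q (X x) M := by
        unfold loss
        have h2 : 0 ≤ gsum M (fun w => X x w ^ 2 * ∑ c : Fin K, X x (c :: w)) :=
          gsum_nonneg M _ fun w => mul_nonneg (sq_nonneg _)
            (Finset.sum_nonneg fun c _ => hX.nonneg x hx.1.le _)
        positivity
      show _ ≤ -(2 * ν) * F x
      rw [hF]
      linarith)
  rw [intervalIntegral.integral_const_mul] at hmain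
  show e t + 2 * ν * ∫ s in (0 : ℝ)..t, F s ≤ e 0
  linarith

end Pool.Agent.W64.Dy
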